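import Pool.Agent.H52LP.Final

/-!
# MP_d8337a_co: `k`-locally planar topological graphs, `k ≥ 4`

For every `k ≥ 4` every `k`-locally planar topological graph (simple or not) with `n` vertices has
at most `200 n ^ (19/13)` edges.  In particular `e*_k(n) = O(n^{19/13}) = o(n^{3/2})` for all
`k ≥ 4`.

Idea: a 4-locally planar graph contains no 1-subdivision of `K₆` (non-planarity of `K_{3,3}`, proved
from the Borsuk-Ulam theorem), and a graph with more than `200 n ^ (19/13)` edges does.
-/

open Pool.Agent.H52LP

namespace Pool.Agent.Results.MP_d8337a_co.KAtLeastFour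

/-- For all `k ≥ 4` and `n`, every `k`-locally planar drawing of a graph on `n` vertices has at most
`200 n ^ (19/13)` edges. -/
theorem result : ∀ k n : ℕ, 4 ≤ k → ∀ (G : SimpleGraph (Fin n)) (D : Drawing G),
    D.LocallyPlanar k → (G.edgeSet.ncard : ℝ) ≤ 200 * (n : ℝ) ^ (19 / 13 : ℝ) := by
  classical
  intro k n hk G D hD
  have h := card_edges_le D (hD.mono hk)
  rw [Fintype.card_fin] at h
  rw [Set.ncard_eq_toFinset_card']
  exact h

end Pool.Agent.Results.MP_d8337a_co.KAtLeastFour
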