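import Pool.Agent.H12_d8337a.Main

/-!
# `e*_k(n) = o(n^{3/2})` for every `k ≥ 3`
-/

open Set Filter Topology

namespace Pool.Agent.Results.MP_d8337a_co.LittleO

open Pool.Agent.LP

/-- a drawing without edges -/
noncomputable def emptyDrawing (n : ℕ) : TopGraph (Fin n) where
  graph := ⊥
  pt := fun i => ((i : ℕ) : ℂ)
  curve := fun _ => ∅
  pt_injective := fun i j h => Fin.ext (Nat.cast_injective (R := ℂ) h)
  isArc := fun u v h => absurd h (by simp)
  avoid := fun e he => absurd he (by simp)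
  finite_inter := fun e he => absurd he (by simp)
  meets := fun e he => absurd he (by simp)

theorem result :
    (∀ k n : ℕ, IsGreatest {m | ∃ D : TopGraph (Fin n), D.Simple ∧ D.LocallyPlanar k ∧
      D.graph.edgeSet.ncard = m} (eStar k n)) ∧
    ∀ k : ℕ, 3 ≤ k →
      (fun n : ℕ => (eStar k n : ℝ)) =o[atTop] fun n : ℕ => (n : ℝ) ^ (3 / 2 : ℝ) := by
  refine ⟨fun k n => ?_, eStar_isLittleO⟩
  have hne : {m | ∃ D : TopGraph (Fin n), D.Simple ∧ D.LocallyPlanar k ∧
      D.graph.edgeSet.ncard = m}.Nonempty := by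
    refine ⟨_, emptyDrawing n, ?_, ?_, rfl⟩
    · intro e he
      exact absurd he (by simp [emptyDrawing])
    · intro u v p _ _ e he
      have := p.edges_subset_edgeSet he
      exact absurd this (by simp [emptyDrawing])
  have hbdd : BddAbove {m | ∃ D : TopGraph (Fin n), D.Simple ∧ D.LocallyPlanar k ∧
      D.graph.edgeSet.ncard = m} := by
    refine ⟨Nat.card (Sym2 (Fin n)), ?_⟩
    rintro m ⟨D, -, -, rfl⟩
    exact (Set.ncard_le_card _).trans (by simp)
  exact ⟨Nat.sSup_mem hne hbdd, fun m hm => le_csSup hbdd hm⟩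

end Pool.Agent.Results.MP_d8337a_co.LittleO
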